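import Pool.Agent.Helper36.DL.LineB
import Pool.Agent.Helper36.DL.Descent
import Pool.Agent.Helper36.DL.Dens
import Pool.Agent.Helper36.DL.Trans
import Pool.Agent.Helper36.DL.UnifAsm
import Pool.Agent.Helper20.DL.UnifC
import Pool.Agent.Helper22.DL.UnifAB
import Pool.Agent.Helper22.DL.HasRel
import Pool.Agent.Helper69.DL.RelU
import Pool.Agent.Helper81.DL.CountU

/-!
# The Zilber–Pink conjecture for affine images of curves in `Y(1)ⁿ`, uniformly

Let `Z ⊆ Y(1)ⁿ = ℂⁿ` be a curve over `ℚ-bar` no point of whose closure in `(ℙ¹)ⁿ` has two coordinates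
in `{0, ∞}` (`CornerCurve Z`).  Let `λ · Z + a` be the image of `Z` under the coordinatewise affine map
`z_i ↦ λ_i z_i + a_i`.

**Theorem.** *There is an integer `M`, which depends on `Z` only, and for every prime `p` which does not
divide `M` there is an integer `B`, such that the curve `λ · Z + a` satisfies the Zilber–Pink conjecture
and has at most `B` points on special subvarieties of codimension at least two for all rational vectors
`λ`, `a` such that the `λ_i` have the same `p`-adic valuation `-m < 0` and the `a_i` have valuations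
larger than `-m`.  In particular for each rational vector `a` (for example `a = 0`) the Zilber–Pink
conjecture holds for `λ · Z + a` for `100 %` of the rational vectors `λ`, ordered by height, and it
holds for `t · Z + a` for all transcendental numbers `t`.*

The bound `B` does not depend on `m`, `λ`, `a`.  More generally `λ` and `a` may be complex vectors whose
coordinates are limits of rational numbers with respect to a nonarchimedean absolute value `v` of `ℂ`
such that `v (p) < 1`.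

Every curve over `ℚ-bar` comes into this position by a general coordinatewise Möbius transformation
`z_i ↦ (z_i - γ_i) / (z_i - δ_i)`: the exceptional algebraic `(γ, δ)` lie in a hypersurface of `ℂ²ⁿ`.
For the diagonal line it is sufficient that the `2n` algebraic numbers `γ_i`, `δ_i` are distinct.

Modulo the places above `p` there is no information on the curve: the reduction of the coordinates
`(x_i - a_i) / λ_i` runs through all of the curve `Z`.  The proof uses the points modulo `p ^ 2`: by the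
theory of the Tate curve `(x_i - 744) / (x_j - 744)` is a root of unity modulo `x_i ^ {-2}` for isogenous
`x_i`, `x_j` of the same absolute value.  This gives points on the curves `H(z_i / z_j, z_k / z_l) = 0`
in `𝔾_m²` which are torsion points modulo `p ^ 2`, up to an explicit correction of the first order.
The orders of these torsion points are bounded: the part of order a power of `p` is treated with the
expansion of `H` along suitable cosets, and the part of order prime to `p` with the Frobenius lift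
`H(X ^ p, Y ^ p) ≡ H(X, Y) ^ p + p Ψ(X, Y)`: if there were infinitely many, then `Ψ` would be a `p`-th
power on the reduction of the curve `H = 0`, which contradicts a derivation.  If one coordinate of the
point is near `0` or `∞`, it may be isogenous to another one; for a torsion point whose order is
divisible by a high power of `p` suitable `p`-power powers of these two coordinates are close to finitely
many algebraic numbers, which implies that the second coordinate is close to a root of unity.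
-/

open Filter MvPolynomial Pool.Agent.Helper11.ZP

namespace Pool.Agent.Results.MP_130685_nt.AffineImages

variable {n : ℕ}

/-! ### The hypotheses -/

/-- no coordinate is constant on `V` -/
def NonConst (V : Set (Fin n → ℂ)) : Prop := ∀ (i : Fin n) (c : ℂ), ∃ z ∈ V, z i ≠ c

/-- `V` is given by equations with algebraic coefficients -/
def OverAlg (V : Set (Fin n → ℂ)) : Prop :=
  ∃ s : Set (MvPolynomial (Fin n) ℂ), (∀ f ∈ s, ∀ m, IsAlgebraic ℚ (f.coeff m)) ∧
    V = {z | ∀ f ∈ s, eval z f = 0}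

open Classical in
/-- the exponent of the monomial `∏_{k ∈ I} T_k ^ (deg_k f)` -/
noncomputable def corner (f : MvPolynomial (Fin n) ℂ) (I : Finset (Fin n)) : Fin n →₀ ℕ :=
  Finsupp.equivFunOnFinite.symm fun k => if k ∈ I then f.degreeOf k else 0

/-- a curve without constant coordinates such that for all `i ≠ j` some polynomial `f(T_i, T_j)` with
algebraic coefficients, which contains the monomials `1`, `T_i ^ a`, `T_j ^ b` and `T_i ^ a T_j ^ b`,
where `a = deg_i f` and `b = deg_j f`, vanishes on `Z` -/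
structure CornerCurve (Z : Set (Fin n → ℂ)) : Prop where
  subvariety : IsSubvariety Z
  curve : dim Z = 1
  nonConst : NonConst Z
  corners : ∀ i j : Fin n, i ≠ j → ∃ f : MvPolynomial (Fin n) ℂ, f.vars ⊆ {i, j} ∧
    (∀ m, IsAlgebraic ℚ (f.coeff m)) ∧ (∀ I ⊆ {i, j}, f.coeff (corner f I) ≠ 0) ∧ ∀ z ∈ Z, eval z f = 0

/-- the image of `Z` under `z_i ↦ λ_i z_i + a_i`, `λ_i ≠ 0` -/
def affine (lam a : Fin n → ℂ) (Z : Set (Fin n → ℂ)) : Set (Fin n → ℂ) :=
  {x | (fun i => (x i - a i) / lam i) ∈ Z}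

/-- all `λ_i ∈ ℚ` have the same `p`-adic valuation `-m < 0`, and the valuations of all `a_i` are larger -/
def AdmissibleAt (p m : ℕ) (lam a : Fin n → ℚ) : Prop :=
  0 < m ∧ ∀ i, padicValRat p (lam i) = -(m : ℤ) ∧ (a i = 0 ∨ -(m : ℤ) < padicValRat p (a i))

/-- the same for vectors of complex numbers which are limits of rational numbers with respect to `v` -/
def Admissible (v : AbsoluteValue ℂ ℝ) (p m : ℕ) (lam a : Fin n → ℂ) : Prop :=
  0 < m ∧ ∀ i, v (lam i) * v (p : ℂ) ^ m = 1 ∧ v (a i) * v (p : ℂ) ^ m < 1 ∧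
    ∀ ε : ℝ, 0 < ε → (∃ q : ℚ, v (lam i - q) < ε) ∧ ∃ q : ℚ, v (a i - q) < ε

/-- the rational vectors of height at most `H`: the vectors `b / q` with integers `1 ≤ q ≤ H`, `|b_i| ≤ H` -/
noncomputable def box (n H : ℕ) : Finset (Fin n → ℚ) :=
  (Finset.Icc (1 : ℤ) H ×ˢ Fintype.piFinset fun _ : Fin n => Finset.Icc (-(H : ℤ)) H).image
    fun v i => (v.2 i : ℚ) / (v.1 : ℚ)

/-- the Zariski closure of the image of `V` under `z_i ↦ (z_i - γ_i) / (z_i - δ_i)` -/
def moebius (γ δ : Fin n → ℂ) (V : Set (Fin n → ℂ)) : Set (Fin n → ℂ) :=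
  zeroLocus ℂ (vanishingIdeal ℂ {w | ∃ z ∈ V, ∀ i, z i ≠ δ i ∧ w i = (z i - γ i) / (z i - δ i)})

/-! ### The conclusions -/

/-- `V` is contained in a special subvariety other than `Y(1)ⁿ` -/
def InProperSpecial (V : Set (Fin n → ℂ)) : Prop := ∃ S : SpecialData n, dim S.carrier < n ∧ V ⊆ S.carrier

/-- `A` is a maximal atypical subvariety of `V` -/
def IsMaxAtypical (V A : Set (Fin n → ℂ)) : Prop :=
  IsAtypical V A ∧ ∀ B, IsAtypical V B → A ⊆ B → B = A

/-- the Zilber–Pink conjecture for `V`: there are only finitely many maximal atypical subvarieties, and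
every atypical subvariety is contained in one of them -/
def ZilberPink (V : Set (Fin n → ℂ)) : Prop :=
  {A | IsMaxAtypical V A}.Finite ∧ ∀ A, IsAtypical V A → ∃ B, IsMaxAtypical V B ∧ A ⊆ B

/-- the points of `V` on the special subvarieties of codimension greater than `dim V` -/
def unlikely (V : Set (Fin n → ℂ)) : Set (Fin n → ℂ) :=
  {x ∈ V | ∃ S : SpecialData n, dim V + dim S.carrier < n ∧ x ∈ S.carrier}

/-- the Zilber–Pink conjecture for `V`, and at most `B` unlikely intersections -/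
def Holds (B : ℕ) (V : Set (Fin n → ℂ)) : Prop :=
  ZilberPink V ∧ ¬ InProperSpecial V ∧ (unlikely V).Finite ∧ (unlikely V).ncard ≤ B

/-- the parameters `t` for which the point with the coordinates `λ_i (t - γ_i) / (t - δ_i) + a_i` is on a
special subvariety of codimension at least two -/
def parameters (γ δ : Fin n → ℂ) (lam a : Fin n → ℚ) : Set ℂ :=
  {t | ∃ S : SpecialData n, dim S.carrier + 2 ≤ n ∧ (fun i => lam i * ((t - γ i) / (t - δ i)) + a i) ∈ S.carrier}

open Classical in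
/-- the proportion of the rational vectors `λ` of height at most `H` such that `Holds B (λ · Z + a)` for
some `B` -/
noncomputable def proportion (Z : Set (Fin n → ℂ)) (a : Fin n → ℚ) (H : ℕ) : ℝ :=
  (((box n H).filter fun lam => ∃ B, Holds B (affine (fun i => lam i) (fun i => a i) Z)).card : ℝ) /
    ((box n H).card : ℝ)

/-! ### The theorem -/

lemma CornerCurve.cornerPos {Z : Set (Fin n → ℂ)} (h : CornerCurve Z) : Helper11.LC.CornerPos 1 Z := by
  classical
  intro J hJ
  obtain ⟨i, j, hij, rfl⟩ := Finset.card_eq_two.1 hJ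
  exact h.corners i j hij

lemma cornerCurve_of {Z : Set (Fin n → ℂ)} (h1 : IsSubvariety Z) (h2 : dim Z = 1) (h3 : NonConst Z)
    (h4 : Helper11.LC.CornerPos 1 Z) : CornerCurve Z := by
  classical
  exact ⟨h1, h2, h3, fun i j hij => h4 {i, j} (Finset.card_pair hij)⟩

/-- the three cases -/
theorem cases {Z : Set (Fin n → ℂ)} (h : CornerCurve Z) :
    ∃ M : ℕ, 0 < M ∧ ∀ p : ℕ, p.Prime → ¬ p ∣ M → ∀ v : AbsoluteValue ℂ ℝ, IsNonarchimedean v →
      v (p : ℂ) < 1 → Helper36.DL.UnifA v p Z ∧ Helper36.DL.UnifB v p Z ∧ Helper36.DL.UnifC v p Z := by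
  have hrel := Helper22.DL.hasRel h.subvariety h.curve h.nonConst h.cornerPos
  obtain ⟨M, hM, h1⟩ := Helper22.DL.unifAB Helper69.DL.torsionRelU h.cornerPos hrel
  obtain ⟨M', hM', h2⟩ := Helper20.DL.unifC hrel
  refine ⟨M * M', Nat.mul_pos hM hM', fun p hp hpM v hv hvp => ?_⟩
  obtain ⟨hA, hB⟩ := h1 p hp (fun hd => hpM (hd.mul_right _)) v hv hvp
  exact ⟨hA, hB, h2 p hp (fun hd => hpM (hd.mul_left _)) v hv hvp⟩

lemma affAt_of {v : AbsoluteValue ℂ ℝ} (hv : IsNonarchimedean v) {p : ℕ} (hp : p.Prime) (hvp : v (p : ℂ) < 1)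
    {m : ℕ} {lam a : Fin n → ℂ} (h : Admissible v p m lam a) : Helper36.DL.AffAt v p m lam a := by
  obtain ⟨hm, h⟩ := h
  have hp0 : 0 < v (p : ℂ) := (AbsoluteValue.pos_iff v).2 (by exact_mod_cast hp.ne_zero)
  have hmul : ∀ x : ℂ, v ((p : ℂ) ^ m * x) = v x * v (p : ℂ) ^ m := fun x => by
    rw [map_mul, map_pow, mul_comm]
  have hcl : ∀ x : ℂ, (∀ ε : ℝ, 0 < ε → ∃ q : ℚ, v (x - q) < ε) → v x * v (p : ℂ) ^ m ≤ 1 →
      Helper36.DL.Zp v p ((p : ℂ) ^ m * x) := by
    intro x hx h1
    have h2 : Helper36.DL.InCl v (x * ((p ^ m : ℚ) : ℂ)) := Helper36.DL.InCl.mul_rat hx _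
    have h3 : x * (((p : ℚ) ^ m : ℚ) : ℂ) = (p : ℂ) ^ m * x := by
      push_cast
      ring
    rw [h3] at h2
    exact h2.zp hv hp hvp (by rw [hmul]; exact h1)
  refine ⟨hm, fun i => hcl _ (fun ε hε => ((h i).2.2 ε hε).1) (h i).1.le, fun i => by rw [hmul]; exact (h i).1,
    fun i => hcl _ (fun ε hε => ((h i).2.2 ε hε).2) (h i).2.1.le, fun i => ?_⟩
  exact Helper36.DL.Zp.le_of_lt hv hp hvp (hcl _ (fun ε hε => ((h i).2.2 ε hε).2) (h i).2.1.le)
    (by rw [hmul]; exact (h i).2.1)

/-- the first part -/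
theorem first {Z : Set (Fin n → ℂ)} (hZ : CornerCurve Z) :
    ∃ M : ℕ, 0 < M ∧ ∀ p : ℕ, p.Prime → ¬ p ∣ M → ∀ v : AbsoluteValue ℂ ℝ, IsNonarchimedean v →
      v (p : ℂ) < 1 → ∃ B : ℕ, ∀ (m : ℕ) (lam a : Fin n → ℂ), Admissible v p m lam a →
        Holds B (affine lam a Z) := by
  obtain ⟨M, hM, h⟩ := Helper36.DL.uniform_of_cases hZ.subvariety hZ.curve hZ.nonConst hZ.cornerPos
    (Helper81.DL.countU hZ.subvariety hZ.curve hZ.nonConst) (cases hZ)
  refine ⟨M, hM, fun p hp hpM v hv hvp => ?_⟩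
  obtain ⟨B, hB⟩ := h p hp hpM v hv hvp
  refine ⟨B, fun m lam a hadm => ?_⟩
  have haff := affAt_of hv hp hvp hadm
  obtain ⟨h1, h1', h2, h3⟩ := hB m lam a haff
  have hl0 := haff.lam_ne
  have hsub := Helper36.DL.isSubvariety_affine hl0 a hZ.subvariety
  have hdim : dim (Helper36.DL.affine lam a Z) = 1 := by
    rw [Helper36.DL.dim_affine hl0, hZ.curve]
  have hss : unlikely (affine lam a Z) ⊆
      {x ∈ Helper36.DL.affine lam a Z | ∃ S : SpecialData n, dim S.carrier + 2 ≤ n ∧ x ∈ S.carrier} := by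
    rintro x ⟨hx, S, hS, hxS⟩
    have hS' : dim (Helper36.DL.affine lam a Z) + dim S.carrier < n := hS
    exact ⟨hx, S, by omega, hxS⟩
  refine ⟨⟨h2, fun A hA => Helper20.ZD.exists_max_curve hsub hdim hA⟩, ?_, h1.subset hss,
    (Set.ncard_le_ncard hss h1).trans h1'⟩
  rintro ⟨S, hS, hVS⟩
  exact h3 S hS hVS

/-- rational vectors -/
lemma admissible_rat {v : AbsoluteValue ℂ ℝ} (hv : IsNonarchimedean v) {p : ℕ} (hp : p.Prime)
    (hvp : v (p : ℂ) < 1) {m : ℕ} {lam a : Fin n → ℚ} (h : AdmissibleAt p m lam a) :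
    Admissible v p m (fun i => lam i) (fun i => a i) := by
  obtain ⟨hm, h⟩ := h
  have hp0 : 0 < v (p : ℂ) := (AbsoluteValue.pos_iff v).2 (by exact_mod_cast hp.ne_zero)
  have hlim : ∀ (q : ℚ) (ε : ℝ), 0 < ε → ∃ r : ℚ, v ((q : ℂ) - r) < ε := fun q ε hε =>
    ⟨q, by rw [sub_self, map_zero]; exact hε⟩
  refine ⟨hm, fun i => ⟨Helper36.DL.v_rat hv hp hvp (h i).1 hm, ?_, fun ε hε => ⟨hlim _ ε hε, hlim _ ε hε⟩⟩⟩
  rcases (h i).2 with h0 | h0
  · simp only [h0, Rat.cast_zero, map_zero, zero_mul]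
    exact zero_lt_one
  · by_cases ha : a i = 0
    · simp only [ha, Rat.cast_zero, map_zero, zero_mul]
      exact zero_lt_one
    · change v ((a i : ℚ) : ℂ) * v (p : ℂ) ^ m < 1
      rw [Helper36.DL.v_rat_zpow hv hp hvp ha, ← zpow_natCast, ← zpow_add₀ hp0.ne']
      calc v (p : ℂ) ^ (padicValRat p (a i) + (m : ℤ)) ≤ v (p : ℂ) ^ (1 : ℤ) :=
            zpow_le_zpow_right_of_le_one₀ hp0 hvp.le (by omega)
        _ < 1 := by rw [zpow_one]; exact hvp

/-- the second part -/
theorem second {Z : Set (Fin n → ℂ)} (hZ : CornerCurve Z) :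
    ∃ M : ℕ, 0 < M ∧ ∀ p : ℕ, p.Prime → ¬ p ∣ M → ∃ B : ℕ, ∀ (m : ℕ) (lam a : Fin n → ℚ),
      AdmissibleAt p m lam a → Holds B (affine (fun i => lam i) (fun i => a i) Z) := by
  obtain ⟨M, hM, h⟩ := first hZ
  refine ⟨M, hM, fun p hp hpM => ?_⟩
  obtain ⟨v, hv, hvp⟩ := Helper36.DL.exists_place hp
  have hvp1 : v (p : ℂ) < 1 := by
    rw [hvp]
    exact inv_lt_one_of_one_lt₀ (by exact_mod_cast hp.one_lt)
  obtain ⟨B, hB⟩ := h p hp hpM v hv hvp1
  exact ⟨B, fun m lam a hadm => hB m _ _ (admissible_rat hv hp hvp1 hadm)⟩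

lemma val_nonneg {p : ℕ} {q : ℚ} (h : q.den < p) : 0 ≤ padicValRat p q := by
  have h1 : ¬ p ∣ q.den := fun h2 => absurd (Nat.le_of_dvd q.den_pos h2) (not_le.2 h)
  rw [padicValRat_def, padicValNat.eq_zero_of_not_dvd h1]
  simp

/-- the third part -/
theorem almost_all {Z : Set (Fin n → ℂ)} (hZ : CornerCurve Z) (a : Fin n → ℚ) :
    Tendsto (proportion Z a) atTop (nhds 1) := by
  classical
  have hn : 0 < n := by
    rcases Nat.eq_zero_or_pos n with rfl | hn
    · exact absurd hZ.curve (by rw [Helper36.DL.dim_zero]; exact zero_ne_one)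
    · exact hn
  obtain ⟨M, hM, h⟩ := second hZ
  have key := Helper36.DL.density_lam hn (M + 1 + ∑ i, (a i).den)
  refine tendsto_of_tendsto_of_tendsto_of_le_of_le key tendsto_const_nhds (fun H => ?_) (fun H => ?_)
  · refine div_le_div_of_nonneg_right ?_ (Nat.cast_nonneg _)
    refine Nat.cast_le.2 (Finset.card_le_card ?_)
    intro lam hlam
    rw [Finset.mem_filter] at hlam ⊢
    obtain ⟨h1, p, hp, hpp, hv⟩ := hlam
    obtain ⟨B, hB⟩ := h p hp fun hd => by
      have := Nat.le_of_dvd hM hd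
      omega
    refine ⟨h1, B, hB 1 lam a ⟨one_pos, fun i => ⟨by simpa using hv i, Or.inr ?_⟩⟩⟩
    have h2 : (a i).den ≤ ∑ i, (a i).den :=
      Finset.single_le_sum (f := fun i => (a i).den) (fun _ _ => Nat.zero_le _) (Finset.mem_univ i)
    have h3 := val_nonneg (p := p) (q := a i) (by omega)
    have : (-((1 : ℕ) : ℤ)) < 0 := by norm_num
    omega
  · exact div_le_one_of_le₀ (Nat.cast_le.2 (Finset.card_filter_le _ _)) (Nat.cast_nonneg _)

/-- the fourth part: multiples by transcendental numbers -/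
theorem transcendental {Z : Set (Fin n → ℂ)} (hZ : CornerCurve Z) {t : ℂ} (ht : Transcendental ℚ t)
    (a : Fin n → ℚ) : ∃ B, Holds B (affine (fun _ => t) (fun i => a i) Z) := by
  obtain ⟨M, hM, h⟩ := first hZ
  obtain ⟨p, hpp, hp⟩ := Nat.exists_infinite_primes (M + 1 + ∑ i, (a i).den)
  have ht' : Transcendental ℤ t := fun halg => ht ((IsFractionRing.isAlgebraic_iff ℤ ℚ ℂ).1 halg)
  obtain ⟨v, hv, hvp, hcl, hvt⟩ := Helper36.DL.exists_place_trans hp ht' 1
  have hpR : (0 : ℝ) < p := by exact_mod_cast hp.pos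
  have hvp1 : v (p : ℂ) < 1 := by
    rw [hvp]
    exact inv_lt_one_of_one_lt₀ (by exact_mod_cast hp.one_lt)
  obtain ⟨B, hB⟩ := h p hp (fun hd => by
    have := Nat.le_of_dvd hM hd
    omega) v hv hvp1
  refine ⟨B, hB 1 _ _ ⟨one_pos, fun i => ⟨?_, ?_, fun ε hε => ⟨hcl ε hε, a i, ?_⟩⟩⟩⟩
  · rw [hvp, hvt, pow_one, pow_one]
    exact mul_inv_cancel₀ hpR.ne'
  · rw [pow_one]
    have h2 : (a i).den ≤ ∑ i, (a i).den :=
      Finset.single_le_sum (f := fun i => (a i).den) (fun _ _ => Nat.zero_le _) (Finset.mem_univ i)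
    have h3 : v ((a i : ℚ) : ℂ) ≤ 1 := by
      by_cases ha : a i = 0
      · rw [ha, Rat.cast_zero, map_zero]
        exact zero_le_one
      · rw [Helper36.DL.v_rat_zpow hv hp hvp1 ha]
        have h4 := val_nonneg (p := p) (q := a i) (by omega)
        have h5 : 0 < v (p : ℂ) := (AbsoluteValue.pos_iff v).2 (by exact_mod_cast hp.ne_zero)
        calc v (p : ℂ) ^ padicValRat p (a i) ≤ v (p : ℂ) ^ (0 : ℤ) :=
              zpow_le_zpow_right_of_le_one₀ h5 hvp1.le h4
          _ = 1 := zpow_zero _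
    calc v ((a i : ℚ) : ℂ) * v (p : ℂ) ≤ 1 * v (p : ℂ) := mul_le_mul_of_nonneg_right h3 (v.nonneg _)
      _ < 1 := by rw [one_mul]; exact hvp1
  · rw [sub_self, map_zero]
    exact hε

/-- **The Zilber–Pink conjecture for affine images of curves, uniformly** -/
theorem result (n : ℕ) :
    (∀ Z : Set (Fin n → ℂ), CornerCurve Z →
      (∃ M : ℕ, 0 < M ∧ ∀ p : ℕ, p.Prime → ¬ p ∣ M → ∀ v : AbsoluteValue ℂ ℝ, IsNonarchimedean v →
        v (p : ℂ) < 1 → ∃ B : ℕ, ∀ (m : ℕ) (lam a : Fin n → ℂ), Admissible v p m lam a →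
          Holds B (affine lam a Z)) ∧
      (∃ M : ℕ, 0 < M ∧ ∀ p : ℕ, p.Prime → ¬ p ∣ M → ∃ B : ℕ, ∀ (m : ℕ) (lam a : Fin n → ℚ),
        AdmissibleAt p m lam a → Holds B (affine (fun i => lam i) (fun i => a i) Z)) ∧
      (∀ a : Fin n → ℚ, Tendsto (proportion Z a) atTop (nhds 1)) ∧
      (∀ t : ℂ, Transcendental ℚ t → ∀ a : Fin n → ℚ, ∃ B, Holds B (affine (fun _ => t) (fun i => a i) Z))) ∧
    (∀ V : Set (Fin n → ℂ), IsSubvariety V → dim V = 1 → NonConst V → OverAlg V →
      ∃ P : MvPolynomial (Fin n ⊕ Fin n) ℂ, P ≠ 0 ∧ ∀ γ δ : Fin n → ℂ, (∀ i, IsAlgebraic ℚ (γ i)) →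
        (∀ i, IsAlgebraic ℚ (δ i)) → eval (Sum.elim γ δ) P ≠ 0 → CornerCurve (moebius γ δ V)) ∧
    (∀ γ δ : Fin n → ℂ, (∀ i, IsAlgebraic ℚ (γ i)) → (∀ i, IsAlgebraic ℚ (δ i)) →
      Function.Injective (Sum.elim γ δ) → ∃ M : ℕ, 0 < M ∧ ∀ p : ℕ, p.Prime → ¬ p ∣ M →
        ∃ B : ℕ, ∀ (m : ℕ) (lam a : Fin n → ℚ), AdmissibleAt p m lam a →
          (parameters γ δ lam a).Finite ∧ (parameters γ δ lam a).ncard ≤ B) := by
  refine ⟨fun Z hZ => ⟨first hZ, second hZ, almost_all hZ, fun t ht => transcendental hZ ht⟩,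
    fun V hV h1 hc hs => ?_, fun γ δ hγ hδ hinj => ?_⟩
  · obtain ⟨P, hP, h⟩ := Helper36.DL.general_moebius hV hs hc
    refine ⟨P, hP, fun γ δ hγ hδ h0 => ?_⟩
    obtain ⟨h2, h3, h4, h5⟩ := h γ δ hγ hδ h0
    rw [h1] at h3 h5
    exact cornerCurve_of h2 h3 h4 h5
  · rcases Nat.eq_zero_or_pos n with rfl | hn
    · refine ⟨1, one_pos, fun p _ _ => ⟨0, fun m lam a _ => ?_⟩⟩
      have hT : parameters γ δ lam a = ∅ := by
        ext t
        simp [parameters]
      rw [hT]
      exact ⟨Set.finite_empty, by rw [Set.ncard_empty]⟩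
    have hγδ : ∀ i, γ i ≠ δ i := fun i h => by
      have := hinj (show Sum.elim γ δ (Sum.inl i) = Sum.elim γ δ (Sum.inr i) from h)
      exact absurd this (by simp)
    obtain ⟨h1, h2, h3⟩ := Helper36.DL.diag_facts hn
    have h4 := Helper36.DL.dim_moebius h1 h3 hγδ
    rw [h2] at h4
    have hZ : CornerCurve (moebius γ δ (Helper36.DL.diag n)) :=
      cornerCurve_of (Helper36.DL.isSubvariety_moebius h1 h3 γ δ) h4 (Helper36.DL.nonConst_moebius h1 h3 hγδ)
        (Helper36.DL.cornerPos_diag hγ hδ hinj)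
    obtain ⟨M, hM, h⟩ := second hZ
    refine ⟨M, hM, fun p hp hpM => ?_⟩
    obtain ⟨B, hB⟩ := h p hp hpM
    refine ⟨B + n, fun m lam a hlam => ?_⟩
    obtain ⟨-, -, h5, h6⟩ := hB m lam a hlam
    have hl0 : ∀ i, ((lam i : ℚ) : ℂ) ≠ 0 := by
      intro i h0
      have h7 : lam i = 0 := by exact_mod_cast h0
      have h8 := (hlam.2 i).1
      rw [h7, padicValRat.zero] at h8
      have := hlam.1
      omega
    have hsub : Helper36.DL.affine (fun i => ((lam i : ℚ) : ℂ)) (fun i => ((a i : ℚ) : ℂ))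
        (Helper36.DL.moebius γ δ (Helper36.DL.diag n)) ∩
          {x | ∃ S : SpecialData n, dim S.carrier + 2 ≤ n ∧ x ∈ S.carrier} ⊆
        unlikely (affine (fun i => lam i) (fun i => a i) (moebius γ δ (Helper36.DL.diag n))) := by
      rintro x ⟨hx, S, hS, hxS⟩
      refine ⟨hx, S, ?_, hxS⟩
      have h7 : dim (affine (fun i => lam i) (fun i => a i) (moebius γ δ (Helper36.DL.diag n))) = 1 :=
        (Helper36.DL.dim_affine hl0 _ _).trans h4
      omega
    refine ⟨?_, ?_⟩
    · exact Helper36.DL.finite_param_aff hn hγδ (lam := fun i => ((lam i : ℚ) : ℂ)) hl0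
        (fun i => ((a i : ℚ) : ℂ)) (T := {x | ∃ S : SpecialData n, dim S.carrier + 2 ≤ n ∧ x ∈ S.carrier})
        (h5.subset hsub)
    · refine (Helper36.DL.ncard_param_aff hn hγδ (lam := fun i => ((lam i : ℚ) : ℂ)) hl0
        (fun i => ((a i : ℚ) : ℂ)) (T := {x | ∃ S : SpecialData n, dim S.carrier + 2 ≤ n ∧ x ∈ S.carrier})
        (h5.subset hsub)).trans ?_
      exact Nat.add_le_add_right ((Set.ncard_le_ncard hsub h5).trans h6) n

end Pool.Agent.Results.MP_130685_nt.AffineImages
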