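import Pool.Agent.Helper11.ZI.Dens

/-!
# Zilber–Pink in `Y(1)ⁿ` for almost all complete intersections: isogenous coordinates

By a theorem of Habegger and Pila a curve `C ⊆ Y(1)³` over the algebraic numbers which is not
contained in a proper special subvariety has only finitely many points on the special curves with a
constant coordinate.  The open part of the Zilber–Pink conjecture for `C` are the points of `C` with
three isogenous coordinates, i.e. the intersections with the special curves
`Φ_N(T₁,T₂) = Φ_M(T₂,T₃) = 0`.

`result` shows that for `100 %` of the complete intersection curves `f₁ = f₂ = 0` in `Y(1)³`, of every
multidegree, there are no such points at all: here the coefficients are independent rational numbers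
of height at most `H → ∞`.  More generally for `100 %` of the `(k + 1)`-tuples of polynomials in `n`
variables the common zero locus meets no special subvariety all of whose classes of isogenous
coordinates have more than `n - k` elements; the coordinates outside the classes are constant special
points.

The proof: `100 %` of the tuples have a prime `p` which divides the denominator of the constant
coefficient of the first polynomial and of no other coefficient, while a fixed nonzero polynomial in
the other coefficients is nonzero modulo `p`.  At a place above `p` the coordinates of a class are
integral or not integral simultaneously, and the special coordinates are integral.  The first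
polynomial forces a coordinate which is not integral, so more than `n - k` coordinates are not
integral.  The leading coefficients of the other polynomials in these variables are `k` polynomials
in less than `k` variables with a common zero modulo `p`: this is excluded by the choice of `p`.
-/

open Finset MvPolynomial Pool.Agent.Helper11.ZP Pool.Agent.Helper11.ZI

namespace Pool.Agent.Results.MP_130685_nt.AlmostAllIntersections

/-- Every class of isogenous coordinates of the special subvariety has more than `e` elements (the
coordinates which are not in a class are constant special points). -/
def BigClasses {n : ℕ} (e : ℕ) (S : SpecialData n) : Prop :=
  ∀ s : Fin S.r, e < (univ.filter fun i => S.cls i = some s).card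

/-- The proportion of the tuples `θ` of rational coefficients of height at most `H` for which the
common zero locus of the `k + 1` polynomials with these coefficients, the `l`-th one of degree at
most `δ l i` in `T_i`, is disjoint from all special subvarieties all of whose classes have more than
`e` elements. -/
noncomputable def proportion {n k : ℕ} (e : ℕ) (δ : Fin (k + 1) → Fin n → ℕ) (H : ℕ) : ℝ :=
  open Classical in
  (((qBox (Σ l : Fin (k + 1), Idx (δ l)) H).filter fun θ =>
    ∀ S : SpecialData n, BigClasses e S → Disjoint (locus δ θ) S.carrier).card : ℝ) /
  ((qBox (Σ l : Fin (k + 1), Idx (δ l)) H).card : ℝ)

/-- **Isogenous coordinates on almost all complete intersections in `Y(1)ⁿ`.** -/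
theorem result (n k : ℕ) (δ : Fin (k + 1) → Fin n → ℕ) :
    Filter.Tendsto (proportion (n - k) δ) Filter.atTop (nhds 1) := by
  classical
  have h := density_locus δ
  refine h.congr fun H => ?_
  unfold proportion
  congr 3
  ext θ
  simp only [mem_filter, and_congr_right_iff]
  intro _
  refine forall_congr' fun S => ?_
  have : (∀ s, n < (classOf S s).card + k) ↔ BigClasses (n - k) S := by
    constructor
    · intro h s
      have h1 := h s
      have h2 : 0 < (classOf S s).card := by
        obtain ⟨i, hi⟩ := S.surj s
        exact card_pos.2 ⟨i, by rw [classOf, mem_filter]; exact ⟨mem_univ _, hi⟩⟩
      change n - k < (classOf S s).card
      omega
    · intro h s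
      have h1 : n - k < (classOf S s).card := h s
      omega
  rw [this]

end Pool.Agent.Results.MP_130685_nt.AlmostAllIntersections
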