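import Pool.Agent.Helper11.ZV.Main

/-!
# Zilber–Pink for the rational translates of a subvariety

Let `Z ⊆ Y(1)ⁿ = ℂⁿ` be in general position at the cusps for the dimension `d` (`GenPos d Z`: no point
of its closure in `(ℙ¹)ⁿ` has more than `d` infinite coordinates).  There is a positive integer `M`,
depending on `Z` only, such that the following holds for **all** rational vectors `a` for which the
greatest common divisor of the denominators does not divide `M`, or for which every `d + 1` of the
denominators have a common prime factor not dividing `M`:

* every subvariety `A` of `(Z + a) ∩ S`, `S` special, with `dim A > d + dim S - n`, lies in one of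
  finitely many explicit special hypersurfaces: the points whose coordinates `i ≠ j` are related by a
  cyclic isogeny of degree `N`, where `N` is in the finite list `levels M (a i) (a j)`, which has at
  most one element for every common prime factor of the two denominators;
* in particular this holds for every atypical subvariety of every subvariety `V` of `Z + a` of
  dimension at least `d`, for instance `V = Z + a`; their union is not Zariski dense in `V`, unless `V`
  is contained in a proper special subvariety;
* if `V` is a curve, then `V` has only finitely many maximal atypical subvarieties: the Zilber–Pink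
  conjecture for `V`.

For example this holds for `Z + (c, …, c)`, for all rational numbers `c` whose denominator does not
divide `M`, that is for all but finitely many `c ∈ ℚ / ℤ`; here the only level is `N = 1`, so that all
atypical subvarieties lie in the diagonals `x_i = x_j`.

If `Z` is in general position by means of integral polynomials whose leading coefficients divide `M`,
then one can take `2 M`.  For the curve `z_i = s / (1 - i s)`, `0 ≤ i < n`, this gives `2 (n - 1)!`.

The proof: at a place above `p` at most `d` coordinates of a point `z` of `Z` do not satisfy that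
`M z_i` is integral.  If `A` lies in a special subvariety which is too small, then, at the generic
point of `A` and at a suitable place, two isogenous coordinates are close to numbers with denominators
`p ^ e`, `p ^ f`.  Their Tate parameters `q`, `q'` have the same valuations, so that the isogeny is
`q' ^ e' = ζ q ^ f'` for a root of unity `ζ` of some exact order `g`, and `ζ` is congruent to a rational
number modulo a power of `p`, which determines `g`.
-/

open MvPolynomial Pool.Agent.Helper11.ZP Pool.Agent.Helper20.ZT Pool.Agent.Helper11.ZU
  Pool.Agent.Helper11.ZV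

namespace Pool.Agent.Results.MP_130685_nt.FiniteAtypical

/-- the Zilber-Pink type conclusion for the translate `X = Z + a` and its subvarieties `V` -/
structure Conclusion {n : ℕ} (M d : ℕ) (a : Fin n → ℚ) (X : Set (Fin n → ℂ)) : Prop where
  /-- the unlikely intersections lie in the special hypersurfaces of the finite list -/
  unlikely : UnlikelyInLevels M d a X
  /-- the union of the atypical subvarieties of `V` is not Zariski dense in `V` if `V` is not contained
  in a proper special subvariety -/
  notDense : ∀ V, IsSubvariety V → V ⊆ X → d ≤ dim V →
    (∀ S : SpecialData n, dim S.carrier < n → ¬ V ⊆ S.carrier) → AtypicalNotDense V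
  /-- Zilber-Pink if `V` is a curve -/
  zilberPink : ∀ V, IsSubvariety V → V ⊆ X → d ≤ 1 → dim V = 1 →
    {A | IsAtypical V A ∧ ∀ B, IsAtypical V B → A ⊆ B → B = A}.Finite

/-- the conclusion for all rational translates whose denominators have a common factor outside `M` -/
def ForTranslates {n : ℕ} (M d : ℕ) (Z : Set (Fin n → ℂ)) : Prop :=
  ∀ a : Fin n → ℚ, CommonFactor M d a → Conclusion M d a (translate Z a)

theorem conclusion {n d M : ℕ} {Z : Set (Fin n → ℂ)} (hM : 0 < M)
    (hgp : ∀ p : ℕ, p.Prime → PlaceM M d Z p) : ForTranslates (2 * M) d Z := fun _ ha =>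
  { unlikely := unlikelyM hM hgp ha
    notDense := fun _ hV hVZ hd => notDenseM hM hgp ha hV hVZ hd
    zilberPink := fun _ hV hVZ hd h => finite_max hV h (notDenseM hM hgp ha hV hVZ (by omega)) }

/-- **Zilber–Pink for the rational translates of a subvariety** -/
theorem result (n : ℕ) :
    (∀ (d : ℕ) (Z : Set (Fin n → ℂ)), GenPos d Z → ∃ M : ℕ, 0 < M ∧ ForTranslates M d Z) ∧
    (∀ (d M : ℕ) (Z : Set (Fin n → ℂ)), 0 < M → IntGenPos M d Z → ForTranslates (2 * M) d Z) ∧
    (0 < n → ∀ a : Fin n → ℚ, CommonFactor (2 * (n - 1).factorial) 1 a →
      IsSubvariety {z : Fin n → ℂ | ∃ s : ℂ, ∀ i : Fin n, 1 - i * s ≠ 0 ∧ z i = s / (1 - i * s) + a i} ∧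
      dim {z : Fin n → ℂ | ∃ s : ℂ, ∀ i : Fin n, 1 - i * s ≠ 0 ∧ z i = s / (1 - i * s) + a i} = 1 ∧
      Conclusion (2 * (n - 1).factorial) 1 a
        {z : Fin n → ℂ | ∃ s : ℂ, ∀ i : Fin n, 1 - i * s ≠ 0 ∧ z i = s / (1 - i * s) + a i}) := by
  have hint : ∀ (d M : ℕ) (Z : Set (Fin n → ℂ)), 0 < M → IntGenPos M d Z → ForTranslates (2 * M) d Z :=
    fun d M Z hM hZ => conclusion hM fun p hp => hZ.placeM hM hp
  refine ⟨fun d Z hZ => ?_, hint, fun hn a ha => ?_⟩
  · obtain ⟨M, hM, h⟩ := exists_placeM_of_genPos hZ
    exact ⟨2 * M, by omega, conclusion hM h⟩
  · have hC : {z : Fin n → ℂ | ∃ s : ℂ, ∀ i : Fin n, 1 - i * s ≠ 0 ∧ z i = s / (1 - i * s) + a i} =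
        translate (Pool.Agent.Helper11.ZT.curve n) a := by
      ext z
      constructor
      · rintro ⟨s, hs⟩
        refine ⟨s, fun i => ⟨(hs i).1, ?_⟩⟩
        dsimp only
        rw [(hs i).2]
        ring
      · rintro ⟨s, hs⟩
        refine ⟨s, fun i => ⟨(hs i).1, ?_⟩⟩
        have h2 := (hs i).2
        dsimp only at h2
        linear_combination h2
    rw [hC]
    obtain ⟨h1, h2⟩ := curve_translate hn a
    exact ⟨h1, h2, hint 1 _ _ (Nat.factorial_pos _) (intGenPos_curve n) a ha⟩

end Pool.Agent.Results.MP_130685_nt.FiniteAtypical
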