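import Pool.Agent.II.Final9

/-!
# Zilber–Pink in `Y(1)ⁿ` for almost all integral homothetic images of every subvariety

Let `Z ⊆ Y(1)ⁿ = ℂⁿ` be any set which is in general position at the cusps for the dimension `d < n`:
no point of its closure in `(ℙ¹)ⁿ` has more than `d` infinite coordinates (`GenPos d Z`).  Then for
`100 %` (natural density) of the integral vectors `(λ, a) ∈ ℤ × ℤⁿ` the image `λ Z + a` meets no
special subvariety of dimension less than `n - d`, and no subvariety of codimension at most `n - d`
contained in it has an atypical subvariety.  Every subvariety `V` of dimension `d < n` comes into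
this position by a coordinatewise Möbius transformation `z_i ↦ 1 / (z_i - γ_i)`, for all `γ`
outside a proper Zariski closed subset of `ℂⁿ`.

The proof works at primes of good ordinary reduction: if a prime `p` divides `λ`, then at a place
above `p` at least `n - d` coordinates of a point of `λ Z + a` are congruent to the integers `a_i`.
By Kronecker's congruence for the modular polynomial every point near an ordinary `a_i` has a
unique closer `p`-isogenous neighbour, and the iteration tends to the canonical lift of `a_i mod p`;
hence isogenous coordinates near `a_i` and `a_j`, and CM points near `a_i`, have the Frobenius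
fields of `a_i mod p` and `a_j mod p`.  For almost all `a` these fields are different.
-/

open Finset MvPolynomial Pool.Agent.Helper11.ZP Pool.Agent.Helper20.ZT

namespace Pool.Agent.Results.MP_130685_nt.IntegralImages

/-- The image `λ Z + a` of `Z`, for integers `λ, a₁, …, aₙ`. -/
def image {n : ℕ} (Z : Set (Fin n → ℂ)) (l : ℤ) (a : Fin n → ℤ) : Set (Fin n → ℂ) :=
  {x | ∃ z ∈ Z, ∀ i, x i = (l : ℂ) * z i + (a i : ℂ)}

/-- The integral vectors `(λ, a)` with entries of absolute value at most `H`. -/
noncomputable def box (n H : ℕ) : Finset (ℤ × (Fin n → ℤ)) :=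
  Icc (-(H : ℤ)) H ×ˢ Fintype.piFinset fun _ : Fin n => Icc (-(H : ℤ)) H

open Classical in
/-- The proportion of the integral vectors `(λ, a)` with entries of absolute value at most `H` such
that the image `λ Z + a` has no unlikely intersections in codimension `k`. -/
noncomputable def proportion {n : ℕ} (k : ℕ) (Z : Set (Fin n → ℂ)) (H : ℕ) : ℝ :=
  (((box n H).filter (fun w => NoUnlikely k (image Z w.1 w.2))).card : ℝ) / ((box n H).card : ℝ)

/-- **Zilber–Pink for almost all integral homothetic images** of every set in general position at
the cusps, and of almost all coordinatewise Möbius images of every subvariety. -/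
theorem result (n : ℕ) :
    (∀ d < n, ∀ Z : Set (Fin n → ℂ), GenPos d Z →
      Filter.Tendsto (proportion (n - d) Z) Filter.atTop (nhds 1)) ∧
    (∀ V : Set (Fin n → ℂ), IsSubvariety V → dim V < n →
      ∃ P : MvPolynomial (Fin n) ℂ, P ≠ 0 ∧ ∀ γ : Fin n → ℂ, eval γ P ≠ 0 →
        Filter.Tendsto (proportion (n - dim V) (moeb γ V)) Filter.atTop (nhds 1)) := by
  refine ⟨fun d _ Z hZ => Pool.Agent.II.images Z hZ, fun V hV hdim => ?_⟩
  obtain ⟨P, hP, h⟩ := genPos_moeb hV
  exact ⟨P, hP, fun γ hγ => Pool.Agent.II.images _ (h γ hγ)⟩

end Pool.Agent.Results.MP_130685_nt.IntegralImages
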