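import Pool.Agent.II.Main79
import Pool.Agent.Helper20.ZT.Moeb

/-!
# Zilber–Pink in `Y(1)ⁿ` for explicit residue classes of integral affine images

Let `Z ⊆ Y(1)ⁿ = ℂⁿ` be any set which is in general position at the cusps for the dimension `d < n`:
no point of its closure in `(ℙ¹)ⁿ` has more than `d` infinite coordinates (`GenPos d Z`).  Let
`l Z + a` be its image under `z_i ↦ l_i z_i + a_i`, for integral vectors `l`, `a`.

**Theorem.** *There are numbers `M`, `C` such that for every prime `p` which does not divide `M`:*

*(1) for all integral vectors `l`, `a` such that `p` divides all `l_i` and `a` modulo `p` is in a certain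
set of at least `(1 - C p ^ (-1/6)) p ^ n` residue classes, all the unlikely intersections of `l Z + a` in
codimension `n - d` lie in the hyperplanes `x_i = c`, where `c` runs through a finite set `E` of special
points which depends neither on `l` nor on `a`;*

*(2) for all large `k` and all integral vectors `l`, `a` such that `p ^ k` divides all `l_i` and `a` modulo
`p ^ k` is in a certain set of at least `(1 - C p ^ (-1/6)) p ^ (k n)` residue classes, `l Z + a` has no
unlikely intersections in codimension `n - d` and no atypical subvarieties at all.*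

*If `Z` is a curve, then the Zilber–Pink conjecture holds for all the curves `l Z + a` of (1), with
one bound for the number of their points on special subvarieties of codimension at least two.*

Every subvariety of dimension `d < n` comes into general position by a coordinatewise Möbius
transformation `z_i ↦ 1 / (z_i - γ_i)`, for all `γ` outside a proper closed subset of `ℂⁿ`.

The varieties `l Z + a` have points which are integral at all places above `p`, and the places above
`p` where at least `n - d` coordinates are congruent to the integers `a_i` are the ones which are used.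
The residue classes are the ones for which the `a_i` are ordinary modulo `p` and have pairwise
different Frobenius fields.  By Kronecker's congruence a point near an ordinary `a_i` has a unique
closer `p`-isogenous neighbour, and the iteration tends to the canonical lift of `a_i` modulo `p`; hence
isogenous coordinates near `a_i` and `a_j`, and special points near `a_i`, have the Frobenius fields of
`a_i` and `a_j` modulo `p`.  The iteration of a special point reaches the canonical lift after a bounded
number of steps: only finitely many special points are congruent to `a_i` modulo `p`.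
-/

open Finset MvPolynomial Pool.Agent.Helper11.ZP Pool.Agent.Helper20.ZT

namespace Pool.Agent.Results.MP_130685_nt.IntegralMembers

variable {n : ℕ}

/-- the image `l Z + a` of `Z` under `z_i ↦ l_i z_i + a_i`, for integral vectors `l`, `a` -/
def image (l a : Fin n → ℤ) (Z : Set (Fin n → ℂ)) : Set (Fin n → ℂ) :=
  {x | ∃ z ∈ Z, ∀ i, x i = (l i : ℂ) * z i + (a i : ℂ)}

/-- `G` contains at least the proportion `1 - C p ^ (-1/6)` of the residue classes modulo `q` -/
def Most (C : ℝ) (p q : ℕ) (G : Finset (Fin n → ZMod q)) : Prop :=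
  (1 - C * (p : ℝ) ^ (-(1 / 6) : ℝ)) * (q : ℝ) ^ n ≤ G.card

/-- `q` divides all `l_i`, and the class of `a` modulo `q` is in `G` -/
def Member (q : ℕ) (G : Finset (Fin n → ZMod q)) (l a : Fin n → ℤ) : Prop :=
  (∀ i, (q : ℤ) ∣ l i) ∧ (fun i => (a i : ZMod q)) ∈ G

/-- the unlikely intersections of `W` in codimension `k` lie in the hyperplanes `x_i = c`, `c ∈ E`: every
point of `W` on a special subvariety of dimension less than `k`, and every atypical subvariety of every
subvariety of codimension at most `k` contained in `W` -/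
def Covered (k : ℕ) (E : Finset ℂ) (W : Set (Fin n → ℂ)) : Prop :=
  (∀ S : SpecialData n, dim S.carrier < k → ∀ x ∈ W, x ∈ S.carrier → ∃ i, x i ∈ E) ∧
    ∀ V, IsSubvariety V → V ⊆ W → n ≤ dim V + k → ∀ A, IsAtypical V A → ∃ i, ∃ c ∈ E, ∀ x ∈ A, x i = c

/-- no coordinate is constant on `V` -/
def NonConst (V : Set (Fin n → ℂ)) : Prop := ∀ (i : Fin n) (c : ℂ), ∃ z ∈ V, z i ≠ c

/-- `V` is contained in a special subvariety other than `Y(1)ⁿ` -/
def InProperSpecial (V : Set (Fin n → ℂ)) : Prop := ∃ S : SpecialData n, dim S.carrier < n ∧ V ⊆ S.carrier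

/-- `A` is a maximal atypical subvariety of `V` -/
def IsMaxAtypical (V A : Set (Fin n → ℂ)) : Prop :=
  IsAtypical V A ∧ ∀ B, IsAtypical V B → A ⊆ B → B = A

/-- the Zilber–Pink conjecture for `V`: there are only finitely many maximal atypical subvarieties, and
every atypical subvariety is contained in one of them -/
def ZilberPink (V : Set (Fin n → ℂ)) : Prop :=
  {A | IsMaxAtypical V A}.Finite ∧ ∀ A, IsAtypical V A → ∃ B, IsMaxAtypical V B ∧ A ⊆ B

/-- the points of `V` on the special subvarieties of codimension at least two -/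
def unlikely (V : Set (Fin n → ℂ)) : Set (Fin n → ℂ) :=
  {x ∈ V | ∃ S : SpecialData n, dim S.carrier + 2 ≤ n ∧ x ∈ S.carrier}

/-- the Zilber–Pink conjecture for the curve `V`, with at most `B` unlikely intersections -/
def Holds (B : ℕ) (V : Set (Fin n → ℂ)) : Prop :=
  IsSubvariety V ∧ dim V = 1 ∧ ZilberPink V ∧ ¬ InProperSpecial V ∧ (unlikely V).Finite ∧
    (unlikely V).ncard ≤ B

/-- **Zilber–Pink for explicit residue classes of integral affine images** -/
theorem result (n : ℕ) :
    (∀ d < n, ∀ Z : Set (Fin n → ℂ), GenPos d Z → ∃ (M : ℕ) (C : ℝ), 0 < M ∧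
      ∀ p : ℕ, p.Prime → ¬ p ∣ M →
        (∃ (G : Finset (Fin n → ZMod p)) (E : Finset ℂ), Most C p p G ∧ (∀ c ∈ E, IsSpecialPoint c) ∧
          ∀ l a : Fin n → ℤ, Member p G l a → Covered (n - d) E (image l a Z)) ∧
        ∃ k₀ : ℕ, ∀ k, k₀ ≤ k → ∃ G : Finset (Fin n → ZMod (p ^ k)), Most C p (p ^ k) G ∧
          ∀ l a : Fin n → ℤ, Member (p ^ k) G l a → NoUnlikely (n - d) (image l a Z)) ∧
    (∀ Z : Set (Fin n → ℂ), IsSubvariety Z → dim Z = 1 → NonConst Z → GenPos 1 Z →
      ∃ (M : ℕ) (C : ℝ), 0 < M ∧ ∀ p : ℕ, p.Prime → ¬ p ∣ M →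
        ∃ (G : Finset (Fin n → ZMod p)) (B : ℕ), Most C p p G ∧
          ∀ l a : Fin n → ℤ, (∀ i, l i ≠ 0) → Member p G l a → Holds B (image l a Z)) ∧
    (∀ V : Set (Fin n → ℂ), IsSubvariety V →
      ∃ P : MvPolynomial (Fin n) ℂ, P ≠ 0 ∧ ∀ γ : Fin n → ℂ, eval γ P ≠ 0 → GenPos (dim V) (moeb γ V)) := by
  refine ⟨fun d hd Z hZ => ?_, fun Z hZ h1 hc hgp => ?_, fun V hV => genPos_moeb hV⟩
  · obtain ⟨M, C, hM, h⟩ := Pool.Agent.II.main79 hd.le hZ
    refine ⟨M, C, hM, fun p hp hpM => ?_⟩
    obtain ⟨⟨G, E, hG, hE, h1⟩, k₀, h2⟩ := h p hp hpM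
    refine ⟨⟨G, E, hG, hE, fun l a hm => h1 l a hm⟩, k₀, fun k hk => ?_⟩
    obtain ⟨G', hG', h3⟩ := h2 k hk
    exact ⟨G', hG', fun l a hm => h3 l a hm⟩
  · obtain ⟨M, C, hM, h⟩ := Pool.Agent.II.curves_vec hZ h1 hc hgp
    refine ⟨M, C, hM, fun p hp hpM => ?_⟩
    obtain ⟨G, B, hG, h2⟩ := h p hp hpM
    exact ⟨G, B, hG, fun l a hl hm => h2 l a hl hm⟩

end Pool.Agent.Results.MP_130685_nt.IntegralMembers
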