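import Pool.Agent.Helper11.AA.Family
import Pool.Agent.Helper22.AA.CountM
import Pool.Agent.Helper36.AA.MembersU
import Pool.Agent.Helper36.DL.BoxSum
import Pool.Agent.Helper36.DL.Final
import Pool.Agent.Helper36.DL.Trans
import Pool.Agent.Helper69.AA.DensE
import Pool.Agent.Helper81.AA.Near

/-!
# The Zilber–Pink conjecture for almost all members of linear systems of curves in `Y(1)ⁿ`, uniformly

Let `X` be a curve over `ℚ-bar`, and let `D_1, …, D_n` be effective divisors on `X` with disjoint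
supports.  For the tuples `(f_1, …, f_n)` of functions `f_i ∈ H⁰(X, 𝒪(D_i))` in a `ℚ`-structure one has:

**Theorem.** *For every `ε > 0` there is an integer `B` such that for a proportion of at least `1 - ε` of the
rational tuples `(f_1, …, f_n)`, ordered by height, the curve in `Y(1)ⁿ` parametrized by `(f_1, …, f_n)`
satisfies the Zilber–Pink conjecture and has at most `B` points on special subvarieties of codimension at
least two.  In particular `100 %` of these curves satisfy the Zilber–Pink conjecture.*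

Every curve in `Y(1)ⁿ` over `ℚ-bar` without constant coordinates no point of whose closure in `(ℙ¹)ⁿ` has two
infinite coordinates is a member of such systems.  Formally the curve is given by its image `V` under finitely
many functions `w_1, …, w_r`, and `f_i = s_i + ∑_{κ (k) = i} s_k w_k`; the functions `w_k` and `w_l` have no
common pole if `κ (k) ≠ κ (l)`.

The set of the parameters is explicit: there is a polynomial `P ≠ 0` with integral coefficients such that for
every prime `p` the same `B` works for all parameters `λ s`, where `s` is an integral vector with `p ∤ P(s)` and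
`λ` is a rational number with `v_p (λ) < 0`.
-/

open Filter MvPolynomial Pool.Agent.Helper11.ZP

namespace Pool.Agent.Results.MP_130685_nt.LinearSystems

variable {n r : ℕ}

/-! ### The hypotheses -/

/-- `V` is given by equations with algebraic coefficients -/
def OverAlg (V : Set (Fin r → ℂ)) : Prop :=
  ∃ s : Set (MvPolynomial (Fin r) ℂ), (∀ f ∈ s, ∀ m, IsAlgebraic ℚ (f.coeff m)) ∧
    V = {z | ∀ f ∈ s, eval z f = 0}

/-- the functions `w_k` and `w_l` on the curve `V` have no common pole: some polynomial `f(T_k, T_l)` with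
algebraic coefficients which contains the monomial `T_k ^ a T_l ^ b`, where `a = deg_k f` and
`b = deg_l f`, vanishes on `V` -/
def NoCommonPole (V : Set (Fin r → ℂ)) (k l : Fin r) : Prop :=
  ∃ f : MvPolynomial (Fin r) ℂ, f.vars ⊆ {k, l} ∧ (∀ m, IsAlgebraic ℚ (f.coeff m)) ∧
    f.coeff (Finsupp.single k (f.degreeOf k) + Finsupp.single l (f.degreeOf l)) ≠ 0 ∧ ∀ w ∈ V, eval w f = 0

/-- a curve `V` over `ℚ-bar` on which no function `w_k` is constant, and a partition of these functions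
into `n` blocks such that functions in different blocks have no common pole -/
structure DisjointPoles (κ : Fin r → Fin n) (V : Set (Fin r → ℂ)) : Prop where
  subvariety : IsSubvariety V
  curve : dim V = 1
  nonConst : ∀ (k : Fin r) (c : ℂ), ∃ w ∈ V, w k ≠ c
  overAlg : OverAlg V
  blocks : Function.Surjective κ
  poles : ∀ k l, κ k ≠ κ l → NoCommonPole V k l

/-- the functions `x_i = s_i + ∑_{κ (k) = i} s_k w_k` -/
def lin (κ : Fin r → Fin n) (s : Fin n ⊕ Fin r → ℂ) (w : Fin r → ℂ) (i : Fin n) : ℂ :=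
  s (Sum.inl i) + ∑ k with κ k = i, s (Sum.inr k) * w k

/-- the Zariski closure of the image of `V` under these functions -/
def member (κ : Fin r → Fin n) (V : Set (Fin r → ℂ)) (s : Fin n ⊕ Fin r → ℂ) : Set (Fin n → ℂ) :=
  zeroLocus ℂ (vanishingIdeal ℂ {x | ∃ w ∈ V, x = lin κ s w})

/-- `x` is a limit of rational numbers with respect to `v` -/
def IsLimit (v : AbsoluteValue ℂ ℝ) (x : ℂ) : Prop := ∀ ε : ℝ, 0 < ε → ∃ q : ℚ, v (x - q) < ε

open Classical in
/-- the rational vectors of height at most `H`: the vectors `b / q` with integers `1 ≤ q ≤ H`, `|b_i| ≤ H` -/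
noncomputable def box (σ : Type) [Fintype σ] (H : ℕ) : Finset (σ → ℚ) :=
  (Finset.Icc (1 : ℤ) H ×ˢ Fintype.piFinset fun _ : σ => Finset.Icc (-(H : ℤ)) H).image
    fun v i => (v.2 i : ℚ) / (v.1 : ℚ)

/-! ### The conclusions -/

/-- `V` is contained in a special subvariety other than `Y(1)ⁿ` -/
def InProperSpecial (V : Set (Fin n → ℂ)) : Prop := ∃ S : SpecialData n, dim S.carrier < n ∧ V ⊆ S.carrier

/-- `A` is a maximal atypical subvariety of `V` -/
def IsMaxAtypical (V A : Set (Fin n → ℂ)) : Prop :=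
  IsAtypical V A ∧ ∀ B, IsAtypical V B → A ⊆ B → B = A

/-- the Zilber–Pink conjecture for `V`: there are only finitely many maximal atypical subvarieties, and
every atypical subvariety is contained in one of them -/
def ZilberPink (V : Set (Fin n → ℂ)) : Prop :=
  {A | IsMaxAtypical V A}.Finite ∧ ∀ A, IsAtypical V A → ∃ B, IsMaxAtypical V B ∧ A ⊆ B

/-- the points of `V` on the special subvarieties of codimension greater than `dim V` -/
def unlikely (V : Set (Fin n → ℂ)) : Set (Fin n → ℂ) :=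
  {x ∈ V | ∃ S : SpecialData n, dim V + dim S.carrier < n ∧ x ∈ S.carrier}

/-- `V` is a curve, it satisfies the Zilber–Pink conjecture, and it has at most `B` unlikely intersections -/
def Holds (B : ℕ) (V : Set (Fin n → ℂ)) : Prop :=
  IsSubvariety V ∧ dim V = 1 ∧ ZilberPink V ∧ ¬ InProperSpecial V ∧ (unlikely V).Finite ∧ (unlikely V).ncard ≤ B

open Classical in
/-- the proportion of the rational vectors `s` of height at most `H` such that `Holds B (member κ V s)` -/
noncomputable def proportion (κ : Fin r → Fin n) (V : Set (Fin r → ℂ)) (B H : ℕ) : ℝ :=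
  (((box (Fin n ⊕ Fin r) H).filter fun s => Holds B (member κ V fun t => (s t : ℂ))).card : ℝ) /
    ((box (Fin n ⊕ Fin r) H).card : ℝ)

/-! ### The theorem -/

lemma member_eq (κ : Fin r → Fin n) (V : Set (Fin r → ℂ)) (s : Fin n ⊕ Fin r → ℂ) :
    member κ V s = Helper36.DL.member κ V s := by
  have h : {x | ∃ w ∈ V, x = lin κ s w} = Helper36.DL.pImage (Helper36.DL.linPoly κ s) V := by
    ext x
    constructor
    · rintro ⟨w, hw, rfl⟩
      exact ⟨w, hw, (Helper36.AA.eval_linPoly' κ s w).symm⟩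
    · rintro ⟨w, hw, rfl⟩
      exact ⟨w, hw, Helper36.AA.eval_linPoly' κ s w⟩
  rw [member, h]
  rfl

/-- the exponents of the corner -/
lemma corner_eq {k l : Fin r} (hkl : k ≠ l) (f : MvPolynomial (Fin r) ℂ) :
    Helper11.LC.corner f {k, l} = Finsupp.single k (f.degreeOf k) + Finsupp.single l (f.degreeOf l) := by
  ext t
  by_cases hk : t = k
  · subst hk
    simp [Helper11.LC.corner, hkl.symm]
  · by_cases hl : t = l
    · subst hl
      simp [Helper11.LC.corner, hkl]
    · simp [Helper11.LC.corner, hk, hl]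

/-- there is at least one coordinate -/
lemma DisjointPoles.pos {κ : Fin r → Fin n} {V : Set (Fin r → ℂ)} (h : DisjointPoles κ V) : 0 < n := by
  rcases Nat.eq_zero_or_pos r with rfl | hr
  · exact absurd h.curve (by rw [Helper36.DL.dim_zero]; exact zero_ne_one)
  · exact (κ ⟨0, hr⟩).pos

/-- the members are images under polynomials of degree one -/
lemma totalDegree_linPoly (κ : Fin r → Fin n) (s : Fin n ⊕ Fin r → ℂ) (i : Fin n) :
    (Helper36.DL.linPoly κ s i).totalDegree ≤ 1 := by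
  rw [Helper36.DL.linPoly]
  refine (totalDegree_add _ _).trans (max_le (by rw [totalDegree_C]; exact zero_le_one) ?_)
  refine (totalDegree_finsetSum _ _).trans (Finset.sup_le fun k _ => ?_)
  refine (totalDegree_mul _ _).trans ?_
  rw [totalDegree_C, zero_add, totalDegree_X]

/-- a common bound for the number of zeros on the members -/
lemma exists_count {V : Set (Fin r → ℂ)} (hV : IsSubvariety V) (h1 : dim V = 1) (κ : Fin r → Fin n) :
    ∃ c : ℕ, ∀ s : Fin n ⊕ Fin r → ℂ, Helper36.DL.CountC c (Helper36.DL.member κ V s) := by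
  obtain ⟨c, hc⟩ := Helper22.AA.count_pClosure hV h1
  refine ⟨c, fun s g hg => ?_⟩
  obtain ⟨h2, h3⟩ := hc n (Helper36.DL.linPoly κ s) (totalDegree_linPoly κ s) g hg
  exact ⟨h2, h3.trans (Nat.mul_le_mul_left _ (Nat.le_succ _))⟩

/-- the conclusions -/
lemma holds_of {B : ℕ} {C : Set (Fin n → ℂ)} (h : Helper36.AA.Concl B C) : Holds B C := by
  obtain ⟨c1, c2, c3, c4, c5, c6⟩ := h
  have hss : unlikely C ⊆ {x ∈ C | ∃ S : SpecialData n, dim S.carrier + 2 ≤ n ∧ x ∈ S.carrier} := by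
    rintro x ⟨hx, S, hS, hxS⟩
    exact ⟨hx, S, by omega, hxS⟩
  refine ⟨c1, c2, ⟨c5, fun A hA => Helper20.ZD.exists_max_curve c1 c2 hA⟩, ?_, c3.subset hss,
    (Set.ncard_le_ncard hss c3).trans c4⟩
  rintro ⟨S, hS, hVS⟩
  exact c6 S hS hVS

/-- scalars -/
lemma scalar_of {v : AbsoluteValue ℂ ℝ} (hv : IsNonarchimedean v) {p : ℕ} (hp : p.Prime) (hvp : v (p : ℂ) < 1)
    {l : ℂ} (hl : IsLimit v l) (h1 : 1 < v l) : Helper36.AA.Scalar v p l := by
  have hp0 : 0 < v (p : ℂ) := (AbsoluteValue.pos_iff v).2 (by exact_mod_cast hp.ne_zero)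
  obtain ⟨q, hq⟩ := hl 1 one_pos
  have hq1 : v (q : ℂ) = v l := by
    rw [show (q : ℂ) = l + -(l - q) by ring]
    exact Helper20.ZD.v_add_eq hv (by rw [map_neg_eq_map]; exact hq.trans h1)
  have hq0 : q ≠ 0 := by
    rintro rfl
    rw [Rat.cast_zero, map_zero] at hq1
    rw [← hq1] at h1
    exact absurd h1 (by norm_num)
  rw [Helper36.DL.v_rat_zpow hv hp hvp hq0] at hq1
  have hneg : padicValRat p q < 0 := by
    by_contra hcon
    have h2 : v (p : ℂ) ^ padicValRat p q ≤ 1 := by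
      obtain ⟨k, hk⟩ := Int.eq_ofNat_of_zero_le (not_lt.1 hcon)
      rw [hk, zpow_natCast]
      exact pow_le_one₀ hp0.le hvp.le
    rw [hq1] at h2
    exact not_lt.2 h2 h1
  obtain ⟨m, hm⟩ := Int.eq_ofNat_of_zero_le (neg_nonneg.2 hneg.le)
  have hval : v ((p : ℂ) ^ m * l) = 1 := by
    rw [map_mul, map_pow, ← hq1, ← zpow_natCast, ← zpow_add₀ hp0.ne', ← hm, neg_add_cancel, zpow_zero]
  refine ⟨m, by omega, ?_, hval⟩
  have h2 : Helper36.DL.InCl v (l * ((p ^ m : ℚ) : ℂ)) := Helper36.DL.InCl.mul_rat hl _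
  have h3 : l * (((p : ℚ) ^ m : ℚ) : ℂ) = (p : ℂ) ^ m * l := by
    push_cast
    ring
  rw [h3] at h2
  exact h2.zp hv hp hvp hval.le

/-- the main theorem -/
theorem main {κ : Fin r → Fin n} {V : Set (Fin r → ℂ)} (h : DisjointPoles κ V) :
    ∃ P : MvPolynomial (Fin n ⊕ Fin r) ℤ, P ≠ 0 ∧ ∀ p : ℕ, p.Prime → ∀ v : AbsoluteValue ℂ ℝ,
      IsNonarchimedean v → v (p : ℂ) < 1 →
      ∃ B : ℕ, ∀ s : Fin n ⊕ Fin r → ℂ, (∀ t, IsLimit v (s t) ∧ v (s t) ≤ 1) → v (aeval s P) = 1 →
        ∀ l : ℂ, IsLimit v l → 1 < v l → Holds B (member κ V fun t => l * s t) := by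
  obtain ⟨ss, zs, hF, hlin⟩ := Helper11.AA.linear_family h.subvariety h.curve h.nonConst h.overAlg h.blocks
    (fun k l hkl => by
      obtain ⟨f, h1, h2, h3, h4⟩ := h.poles k l hkl
      exact ⟨f, h1, h2, by rwa [corner_eq fun hne => hkl (by rw [hne])], h4⟩)
  obtain ⟨c, hc⟩ := exists_count h.subvariety h.curve κ
  obtain ⟨P, hP, hm⟩ := Helper36.AA.members_uniform h.pos h.blocks h.subvariety h.curve h.overAlg h.nonConst
    hlin (Helper81.AA.family_class hF) hc
  refine ⟨P, hP, fun p hp v hv hvp => ?_⟩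
  obtain ⟨B, hB⟩ := hm p hp v hv hvp
  refine ⟨B, fun s hs hsP l hl h1 => ?_⟩
  rw [member_eq]
  exact holds_of (hB s (fun t => Helper36.DL.InCl.zp hv hp hvp (hs t).1 (hs t).2) hsP l
    (scalar_of hv hp hvp hl h1))

/-- rational parameters -/
theorem rational {κ : Fin r → Fin n} {V : Set (Fin r → ℂ)} {P : MvPolynomial (Fin n ⊕ Fin r) ℤ} {p : ℕ}
    (hp : p.Prime) (h : ∀ v : AbsoluteValue ℂ ℝ, IsNonarchimedean v → v (p : ℂ) < 1 →
      ∃ B : ℕ, ∀ s : Fin n ⊕ Fin r → ℂ, (∀ t, IsLimit v (s t) ∧ v (s t) ≤ 1) → v (aeval s P) = 1 →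
        ∀ l : ℂ, IsLimit v l → 1 < v l → Holds B (member κ V fun t => l * s t)) :
    ∃ B : ℕ, ∀ s : Fin n ⊕ Fin r → ℤ, ¬ (p : ℤ) ∣ eval s P → ∀ l : ℚ, padicValRat p l < 0 →
      Holds B (member κ V fun t => l * s t) := by
  obtain ⟨v, hv, hvp⟩ := Helper36.DL.exists_place hp
  have hvp1 : v (p : ℂ) < 1 := by
    rw [hvp]
    exact inv_lt_one_of_one_lt₀ (by exact_mod_cast hp.one_lt)
  have hp0 : 0 < v (p : ℂ) := (AbsoluteValue.pos_iff v).2 (by exact_mod_cast hp.ne_zero)
  have hlim : ∀ q : ℚ, IsLimit v (q : ℂ) := fun q ε hε => ⟨q, by rw [sub_self, map_zero]; exact hε⟩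
  obtain ⟨B, hB⟩ := h v hv hvp1
  refine ⟨B, fun s hs l hl => hB _ (fun t => ⟨?_, hv.apply_intCast_le_one⟩) ?_ l (hlim l) ?_⟩
  · have := hlim (s t : ℚ)
    rwa [Rat.cast_intCast] at this
  · exact (Helper36.AA.unit_near hv hp hvp1 (s := fun t => (s t : ℂ)) (s₀ := s)
      (fun t => by rw [sub_self, map_zero]; exact hp0.le) P).2 hs
  · have hl0 : l ≠ 0 := by
      rintro rfl
      rw [padicValRat.zero] at hl
      exact lt_irrefl _ hl
    rw [Helper36.DL.v_rat_zpow hv hp hvp1 hl0]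
    exact one_lt_zpow_of_neg₀ hp0 hvp1 hl

/-- there are rational vectors -/
lemma box_pos (σ : Type) [Fintype σ] {H : ℕ} (hH : 1 ≤ H) : 0 < (box σ H).card := by
  classical
  refine Finset.card_pos.2 ⟨fun _ => 0, ?_⟩
  rw [box, Finset.mem_image]
  refine ⟨((1 : ℤ), fun _ => (0 : ℤ)), ?_, by simp⟩
  rw [Finset.mem_product, Fintype.mem_piFinset]
  have h1 : (1 : ℤ) ≤ (H : ℤ) := by exact_mod_cast hH
  exact ⟨Finset.mem_Icc.2 ⟨le_rfl, h1⟩, fun _ => Finset.mem_Icc.2
    ⟨neg_nonpos.2 (Nat.cast_nonneg H), Nat.cast_nonneg H⟩⟩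

/-- the proportion -/
theorem almost_all {κ : Fin r → Fin n} {V : Set (Fin r → ℂ)} (h : DisjointPoles κ V) {ε : ℝ} (hε : 0 < ε) :
    ∃ B : ℕ, ∀ᶠ H : ℕ in atTop, 1 - ε ≤ proportion κ V B H := by
  classical
  obtain ⟨P, hP, hm⟩ := main h
  have : Nonempty (Fin n ⊕ Fin r) := ⟨Sum.inl ⟨0, h.pos⟩⟩
  obtain ⟨p₁, hp₁⟩ := Helper69.AA.density_boxS_eps (σ := Fin n ⊕ Fin r) hP 0 hε
  have key : ∀ p : ℕ, ∃ B : ℕ, p.Prime → ∀ s : Fin n ⊕ Fin r → ℤ, ¬ (p : ℤ) ∣ eval s P → ∀ l : ℚ,
      padicValRat p l < 0 → Holds B (member κ V fun t => l * s t) := by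
    intro p
    by_cases hp : p.Prime
    · obtain ⟨B, hB⟩ := rational (κ := κ) (V := V) (P := P) hp (hm p hp)
      exact ⟨B, fun _ => hB⟩
    · exact ⟨0, fun h => absurd h hp⟩
  choose B hB using key
  refine ⟨(Finset.range (p₁ + 1)).sup B, (hp₁.and (eventually_ge_atTop 1)).mono fun H hH => ?_⟩
  obtain ⟨hH, hH1⟩ := hH
  have hbox : 0 < ((box (Fin n ⊕ Fin r) H).card : ℝ) := Nat.cast_pos.2 (box_pos _ hH1)
  rw [proportion, le_div_iff₀ hbox]
  refine hH.trans (Nat.cast_le.2 (Finset.card_le_card ?_))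
  intro s hs
  obtain ⟨h2, p, s', q', hp, -, hpp, hq, hps, hs'⟩ := Finset.mem_filter.1 hs
  have := Fact.mk hp
  have hl : padicValRat p (((p : ℚ) * (q' : ℚ))⁻¹) < 0 := by
    have hq0 : (q' : ℚ) ≠ 0 := by
      have : q' ≠ 0 := fun h => hq (h ▸ dvd_zero _)
      exact_mod_cast this
    have hp0 : (p : ℚ) ≠ 0 := by exact_mod_cast hp.ne_zero
    rw [padicValRat.inv, padicValRat.mul hp0 hq0, padicValRat.self hp.one_lt, padicValRat.of_int,
      padicValInt.eq_zero_of_not_dvd hq]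
    norm_num
  have h3 := hB p hp s' hps _ hl
  have h4 : (fun t => ((s t : ℚ) : ℂ)) = fun t => ((((p : ℚ) * (q' : ℚ))⁻¹ : ℚ) : ℂ) * ((s' t : ℤ) : ℂ) := by
    funext t
    rw [hs' t]
    push_cast
    rw [div_eq_inv_mul]
  refine Finset.mem_filter.2 ⟨h2, ?_⟩
  rw [h4]
  obtain ⟨c1, c2, c3, c4, c5, c6⟩ := h3
  exact ⟨c1, c2, c3, c4, c5, c6.trans (Finset.le_sup (f := B) (Finset.mem_range.2 (Nat.lt_succ_of_le hpp)))⟩

/-- **The Zilber–Pink conjecture for almost all members of linear systems**, uniformly -/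
theorem result (n r : ℕ) (κ : Fin r → Fin n) (V : Set (Fin r → ℂ)) (h : DisjointPoles κ V) :
    (∃ P : MvPolynomial (Fin n ⊕ Fin r) ℤ, P ≠ 0 ∧ ∀ p : ℕ, p.Prime →
      (∃ B : ℕ, ∀ s : Fin n ⊕ Fin r → ℤ, ¬ (p : ℤ) ∣ eval s P → ∀ l : ℚ, padicValRat p l < 0 →
        Holds B (member κ V fun t => l * s t)) ∧
      ∀ v : AbsoluteValue ℂ ℝ, IsNonarchimedean v → v (p : ℂ) < 1 →
        ∃ B : ℕ, ∀ s : Fin n ⊕ Fin r → ℂ, (∀ t, IsLimit v (s t) ∧ v (s t) ≤ 1) → v (aeval s P) = 1 →
          ∀ l : ℂ, IsLimit v l → 1 < v l → Holds B (member κ V fun t => l * s t)) ∧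
    ∀ ε : ℝ, 0 < ε → ∃ B : ℕ, ∀ᶠ H : ℕ in atTop, 1 - ε ≤ proportion κ V B H := by
  obtain ⟨P, hP, hm⟩ := main h
  exact ⟨⟨P, hP, fun p hp => ⟨rational hp (hm p hp), hm p hp⟩⟩, fun ε hε => almost_all h hε⟩

end Pool.Agent.Results.MP_130685_nt.LinearSystems
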