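import Pool.Agent.Helper11.LC.Deg
import Pool.Agent.Helper36.ZD.Good
import Pool.Agent.Helper69.ZD.Family
import Pool.Agent.Helper20.ZD.Trans

/-!
# A local criterion for the Zilber–Pink conjecture in `Y(1)ⁿ`

Let `v` be a nonarchimedean absolute value of `ℂ`, for instance an extension of a `p`-adic absolute
value of a number field, and let `Δ ⊆ ℂ` be a finite union of discs `v(x - a) ≤ ρ v(a)`, where
`v(a) > 1` and `ρ < 1`.

**Theorem.** *If at every point of the curve `C ⊆ Y(1)ⁿ = ℂⁿ` all coordinates but at most one are in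
`Δ`, then `C` satisfies the Zilber–Pink conjecture.  If moreover no coordinate is constant on `C`, then
`C` meets the union of all special subvarieties of codimension at least two in a finite set.*

The hypothesis is a condition modulo one place: it is satisfied if, for some `s_i` with `v(s_i) > 1`,
the reduction modulo `v` of the curve `(x_i / s_i)` is a union of lines parallel to the coordinate axes
whose constant coordinates are different from `0` and `∞`.  The curve is not assumed to be defined over
a number field, to be asymmetric, or to pass through a cusp.  For example: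

* complete intersections: it is sufficient that the equations of the curve are congruent modulo `v` to
  products `∏ P_{l,i}(x_i / s_i)` of polynomials in one variable, whose leading and constant
  coefficients are units, without common roots modulo `v` for different `l`;
* translates: if `Z` is any curve no point of whose closure in `(ℙ¹)ⁿ` has two infinite coordinates,
  then for every `v` there is an `R` such that the hypothesis holds for all translates `Z + a`, where
  `v(a_i) > R` for all `i`.

More precisely there is a bound `M`, which depends on `v` and `Δ` only, such that for every `n` and `d`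
and every subvariety `V` of `Y(1)ⁿ` at whose points at most `d` coordinates are not in `Δ`, all unlikely
intersections of `V` lie in the special hypersurfaces `Φ_N(x_i, x_j) = 0` with `N ≤ M`.  The place may
also depend on the coordinates; in this way one obtains the same conclusions for all translates `Z + a`
by rational vectors `a` such that the greatest common divisor of the denominators of the `a_i` does not
divide an integer depending on `Z`.

For **every** subvariety `V` of `Y(1)ⁿ` which is not contained in a proper special subvariety the points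
of `V` on special subvarieties of codimension greater than `dim V`, at which at most `dim V` coordinates
are not in `Δ`, are not Zariski dense in `V`, so that there are only finitely many of them if `V` is a
curve.  If `v` extends a `p`-adic absolute value, the same holds for the points all of whose coordinates
but at most `dim V` are algebraic of degree at most `D` and of absolute value `1 < v(x_i) ≤ R`.

The proof is by the theory of the Tate curve: an isogeny between elements of two discs is given by an
equation `q' ^ e = ζ q ^ f` between their Tate parameters, where `e / f` is determined by the two discs,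
and where the root of unity `ζ` lies in a disc of radius less than one, so that only finitely many `ζ`
are possible.
-/

open UpperHalfPlane MvPolynomial Pool.Agent.Helper11.ZP

namespace Pool.Agent.Results.MP_130685_nt.LocalCriterion

variable {n : ℕ}

/-! ### The hypotheses -/

/-- the union of the discs `v(x - a) ≤ ρ v(a)`, `a ∈ F` -/
def discs (v : AbsoluteValue ℂ ℝ) (F : Finset ℂ) (ρ : ℝ) : Set ℂ := {x | ∃ a ∈ F, v (x - a) ≤ ρ * v a}

/-- the algebraic numbers `x` of degree at most `D` over `ℚ` with `1 < v(x) ≤ R` -/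
def boundedDegree (v : AbsoluteValue ℂ ℝ) (D : ℕ) (R : ℝ) : Set ℂ :=
  {x | IsAlgebraic ℚ x ∧ (minpoly ℚ x).natDegree ≤ D ∧ 1 < v x ∧ v x ≤ R}

/-- at most `d` coordinates of a point of `V` are not in `Δ` -/
def AtMost (d : ℕ) (Δ : Set ℂ) (V : Set (Fin n → ℂ)) : Prop :=
  ∀ x ∈ V, ∀ J : Finset (Fin n), (∀ i ∈ J, x i ∉ Δ) → J.card ≤ d

/-- the polynomials `f_l` are congruent modulo the maximal ideal of `v` to the products of the
polynomials `P_{l,i}(Y_i)`, whose degrees are at least those of `f_l` in `Y_i`, and whose coefficients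
are `v`-integral, the leading and the constant coefficient being units; and for each `i` the polynomials
`P_{l,i}` have no common roots modulo `v` -/
structure SplitSystem (v : AbsoluteValue ℂ ℝ) {k : ℕ} (f : Fin k → MvPolynomial (Fin n) ℂ)
    (P : Fin k → Fin n → Polynomial ℂ) : Prop where
  congr : ∀ l m, v ((f l - ∏ i, Polynomial.aeval (X i : MvPolynomial (Fin n) ℂ) (P l i)).coeff m) < 1
  degree : ∀ l i, (f l).degreeOf i ≤ (P l i).natDegree
  integral : ∀ l i m, v ((P l i).coeff m) ≤ 1
  leading : ∀ l i, v (P l i).leadingCoeff = 1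
  const : ∀ l i, v ((P l i).coeff 0) = 1
  coprime : ∀ i l l', l ≠ l' → ∀ r r' : ℂ, (P l i).eval r = 0 → (P l' i).eval r' = 0 → v (r - r') = 1

/-- `Z` is in general position at the cusps for the dimension `d`: for every set `J` of `d + 1`
coordinates some polynomial in these coordinates, which contains its top monomial `∏ T_i ^ (deg_i f)`,
vanishes on `Z` -/
def GenPos (d : ℕ) (Z : Set (Fin n → ℂ)) : Prop :=
  ∀ J : Finset (Fin n), J.card = d + 1 → ∃ f : MvPolynomial (Fin n) ℂ, f.vars ⊆ J ∧
    f.coeff (Finsupp.equivFunOnFinite.symm fun i => f.degreeOf i) ≠ 0 ∧ ∀ z ∈ Z, eval z f = 0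

/-- the denominators of every `d + 1` of the `a_i` have a common prime factor which does not divide `M`,
or the greatest common divisor of all denominators does not divide `M` -/
def CommonFactor (M d : ℕ) (a : Fin n → ℚ) : Prop :=
  (∀ J : Finset (Fin n), J.card = d + 1 → ∃ p : ℕ, p.Prime ∧ ¬ p ∣ M ∧ ∀ i ∈ J, p ∣ (a i).den) ∨
    ¬ Finset.univ.gcd (fun i => (a i).den) ∣ M

/-- the translate `Z + a` -/
def translate (Z : Set (Fin n → ℂ)) (a : Fin n → ℂ) : Set (Fin n → ℂ) := {x | (fun i => x i - a i) ∈ Z}

/-! ### The conclusions -/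

/-- `Φ_N(x, y) = 0`: the points `x`, `y` of `Y(1)` are related by a cyclic isogeny of degree `N`, that is
`x = j(τ)` and `y = j(Nτ)` for some `τ` in the upper half plane -/
def CyclicIsog (N : ℕ) (x y : ℂ) : Prop :=
  ∃ τ τ' : ℍ, (τ' : ℂ) = N * (τ : ℂ) ∧ x = jInv τ ∧ y = jInv τ'

/-- `V` is contained in a special subvariety other than `Y(1)ⁿ` -/
def InProperSpecial (V : Set (Fin n → ℂ)) : Prop := ∃ S : SpecialData n, dim S.carrier < n ∧ V ⊆ S.carrier

/-- the union of the atypical subvarieties of `V` is not Zariski dense in `V` -/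
def AtypicalNotDense (V : Set (Fin n → ℂ)) : Prop :=
  ∃ f : MvPolynomial (Fin n) ℂ, (∃ x ∈ V, eval x f ≠ 0) ∧ ∀ A, IsAtypical V A → ∀ x ∈ A, eval x f = 0

/-- `A` is a maximal atypical subvariety of `V` -/
def IsMaxAtypical (V A : Set (Fin n → ℂ)) : Prop :=
  IsAtypical V A ∧ ∀ B, IsAtypical V B → A ⊆ B → B = A

/-- the Zilber–Pink conjecture for `V`: there are only finitely many maximal atypical subvarieties, and
every atypical subvariety is contained in one of them -/
def ZilberPink (V : Set (Fin n → ℂ)) : Prop :=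
  {A | IsMaxAtypical V A}.Finite ∧ ∀ A, IsAtypical V A → ∃ B, IsMaxAtypical V B ∧ A ⊆ B

/-- the points of `V` on the special subvarieties of codimension greater than `dim V` -/
def unlikely (V : Set (Fin n → ℂ)) : Set (Fin n → ℂ) :=
  {x ∈ V | ∃ S : SpecialData n, dim V + dim S.carrier < n ∧ x ∈ S.carrier}

/-- the points of `V` on the special subvarieties of codimension greater than `dim V` at which at most
`dim V` coordinates are not in `Δ` -/
def unlikelyNear (Δ : Set ℂ) (V : Set (Fin n → ℂ)) : Set (Fin n → ℂ) :=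
  {x ∈ unlikely V | ∀ J : Finset (Fin n), (∀ i ∈ J, x i ∉ Δ) → J.card ≤ dim V}

/-- these points are not Zariski dense in `V`, and finite in number if `V` is a curve -/
def NotDenseNear (Δ : Set ℂ) (V : Set (Fin n → ℂ)) : Prop :=
  (∃ f : MvPolynomial (Fin n) ℂ, (∃ x ∈ V, eval x f ≠ 0) ∧ ∀ x ∈ unlikelyNear Δ V, eval x f = 0) ∧
    (dim V = 1 → (unlikelyNear Δ V).Finite)

/-- the conclusions for a subvariety `V` of dimension `d` -/
structure Controlled (M d : ℕ) (V : Set (Fin n → ℂ)) : Prop where
  /-- the unlikely intersections of `V` lie in the hypersurfaces `Φ_N(x_i, x_j) = 0` with `N ≤ M` -/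
  cover : ∀ (S : SpecialData n) (A : Set (Fin n → ℂ)), IsSubvariety A → A ⊆ V ∩ S.carrier →
    d + dim S.carrier < dim A + n → ∃ (i j : Fin n) (N : ℕ), i ≠ j ∧ N ≤ M ∧
      ∀ x ∈ S.carrier, CyclicIsog N (x i) (x j)
  /-- the atypical subvarieties are not dense, unless `V` lies in a proper special subvariety -/
  notDense : dim V = d → ¬ InProperSpecial V → AtypicalNotDense V
  /-- curves satisfy the Zilber–Pink conjecture -/
  zilberPink : d = 1 → dim V = 1 → ZilberPink V
  /-- plain finiteness for the curves without constant coordinates -/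
  finite : d = 1 → dim V = 1 → (∀ (i : Fin n) (c : ℂ), ∃ x ∈ V, x i ≠ c) → (unlikely V).Finite

/-- the second conclusion follows from a bound for the isogenies -/
theorem near {Δ : Set ℂ} (hΔ : Helper20.ZD.IsogenyBounded Δ) {V : Set (Fin n → ℂ)} (hV : IsSubvariety V)
    (hVS : ¬ InProperSpecial V) : NotDenseNear Δ V := by
  obtain ⟨M, hM⟩ := hΔ.bounded
  obtain ⟨f, ⟨y, hy, hfy⟩, h2⟩ :=
    Helper36.ZD.notDense_points_good M hV fun S hS1 hS2 => hVS ⟨S, hS1, hS2⟩
  have h3 : ∀ x ∈ unlikelyNear Δ V, eval x f = 0 := fun x hx =>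
    h2 x hx.1.2 (Helper36.ZD.good_of_atMost ⟨hΔ.special, hM⟩ hx.2)
  refine ⟨⟨f, ⟨y, hy, hfy⟩, h3⟩, fun h1 => ?_⟩
  refine (Helper11.ZU.finite_section hV h1.le (f := f) fun hcon => hfy ?_).subset
    fun x hx => ⟨hx.1.1, h3 x hx⟩
  exact Helper11.ZU.mem_van.1 hcon y hy

/-- the first conclusions follow from a bound for the isogenies -/
theorem controlled {M d : ℕ} {V : Set (Fin n → ℂ)} (hV : IsSubvariety V)
    (h : ∀ x ∈ V, Helper36.ZD.Good M d x) : Controlled M d V where
  cover S A hA hAV hd := by
    obtain ⟨i, j, N, h1, -, h2, h3⟩ := Helper36.ZD.cover_good hA (fun x hx => h x (hAV hx).1) S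
      (fun x hx => (hAV hx).2) hd
    exact ⟨i, j, N, h1, h2, h3⟩
  notDense hd hVS := Helper36.ZD.notDense_good hV h hd.ge fun S hS1 hS2 => hVS ⟨S, hS1, hS2⟩
  zilberPink hd h1 := by
    subst hd
    exact ⟨Helper36.ZD.zp_good hV h1 h, fun A hA => Helper20.ZD.exists_max_curve hV h1 hA⟩
  finite hd h1 hc := by
    subst hd
    refine (Helper36.ZD.finite_codim_two_good hV h1 h hc).subset ?_
    rintro x ⟨hx, S, hS, hxS⟩
    exact ⟨hx, S, by omega, hxS⟩

/-- **The local criterion** -/
theorem result :
    -- the criterion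
    (∀ v : AbsoluteValue ℂ ℝ, IsNonarchimedean v → ∀ (F : Finset ℂ) (ρ : ℝ), (∀ a ∈ F, 1 < v a) → ρ < 1 →
      (∃ M : ℕ, ∀ (n d : ℕ) (V : Set (Fin n → ℂ)), IsSubvariety V → AtMost d (discs v F ρ) V →
        Controlled M d V) ∧
      -- all subvarieties: the unlikely points with at most `dim V` coordinates not in the discs
      ∀ (n : ℕ) (V : Set (Fin n → ℂ)), IsSubvariety V → ¬ InProperSpecial V →
        NotDenseNear (discs v F ρ) V) ∧
    -- all subvarieties: points of bounded degree
    (∀ v : AbsoluteValue ℂ ℝ, IsNonarchimedean v → (∃ p : ℕ, p.Prime ∧ v p < 1) → ∀ (D : ℕ) (R : ℝ) (n : ℕ)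
      (V : Set (Fin n → ℂ)), IsSubvariety V → ¬ InProperSpecial V →
        NotDenseNear (boundedDegree v D R) V) ∧
    -- complete intersections whose equations split modulo `v`
    (∀ v : AbsoluteValue ℂ ℝ, IsNonarchimedean v → ∀ (n k : ℕ) (s : Fin n → ℂ), (∀ i, 1 < v (s i)) →
      ∀ (f : Fin k → MvPolynomial (Fin n) ℂ) (P : Fin k → Fin n → Polynomial ℂ), SplitSystem v f P →
        ∃ (F : Finset ℂ) (ρ : ℝ), (∀ a ∈ F, 1 < v a) ∧ ρ < 1 ∧
          AtMost (n - k) (discs v F ρ) {x | ∀ l, eval (fun i => x i / s i) (f l) = 0}) ∧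
    -- all translates by `v`-adically large vectors
    (∀ v : AbsoluteValue ℂ ℝ, IsNonarchimedean v → ∀ (n d : ℕ) (Z : Set (Fin n → ℂ)), GenPos d Z →
      ∃ R : ℝ, ∀ a : Fin n → ℂ, (∀ i, R < v (a i)) → ∃ (F : Finset ℂ) (ρ : ℝ), (∀ a ∈ F, 1 < v a) ∧
        ρ < 1 ∧ AtMost d (discs v F ρ) (translate Z a)) ∧
    -- the translates by all rational vectors whose denominators have a common factor
    (∀ (n d : ℕ) (Z : Set (Fin n → ℂ)), GenPos d Z → ∃ M : ℕ, 0 < M ∧ ∀ a : Fin n → ℚ,
      CommonFactor M d a → ∃ M' : ℕ, ∀ V : Set (Fin n → ℂ), IsSubvariety V →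
        V ⊆ translate Z (fun i => a i) → Controlled M' d V) := by
  refine ⟨fun v hv F ρ hF hρ => ⟨?_, fun n V hV hVS => ?_⟩, fun v hv ⟨p, hp, hvp⟩ D R n V hV hVS => ?_,
    fun v hv n k s hs f P h => ?_, fun v hv n d Z hZ => ?_, fun n d Z hZ => ?_⟩
  · obtain ⟨M, hM⟩ := (Helper20.ZD.isogenyBounded_discs hv hρ hF).bounded
    exact ⟨M, fun n d V hV h => controlled hV fun x hx => Helper36.ZD.good_of_atMost
      ⟨(Helper20.ZD.isogenyBounded_discs hv hρ hF).special, hM⟩ (h x hx)⟩
  · exact near (Helper20.ZD.isogenyBounded_discs hv hρ hF) hV hVS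
  · exact near (Helper11.LC.isogenyBounded_deg v hv hp hvp D R) hV hVS
  · exact Helper69.ZD.atMost_of_system v hv hs
      ⟨h.integral, h.leading, h.const, h.degree, h.congr, h.coprime⟩
  · obtain ⟨R, hR⟩ := Helper20.ZD.atMost_translate hv (d := d) (Z := Z) fun J hJ => by
      obtain ⟨f, h1, h2, h3⟩ := hZ J hJ
      exact ⟨f, ⟨h1, h2⟩, h3⟩
    exact ⟨R, hR⟩
  · obtain ⟨M, hM, h⟩ := Helper69.ZD.locally_translate_of_genPos (d := d) (Z := Z) fun J hJ => by
      obtain ⟨f, h1, h2, h3⟩ := hZ J hJ
      exact ⟨f, ⟨h1, h2⟩, h3⟩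
    refine ⟨M, hM, fun a ha => ?_⟩
    obtain ⟨M', hM'⟩ := Helper36.ZD.exists_good_of_locally (h a ha)
    exact ⟨M', fun V hV hVZ => controlled hV fun x hx => hM' x (hVZ hx)⟩

end Pool.Agent.Results.MP_130685_nt.LocalCriterion
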