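import Pool.Agent.Helper36.ZW.Bridge

/-!
# Zilber–Pink in `Y(1)ⁿ` for translates, uniformly in the translate

Let `Z ⊆ Y(1)ⁿ = ℂⁿ` be a subvariety in hereditary general position at the cusps; for a curve this
means that no point of its closure in `(ℙ¹)ⁿ` has two infinite coordinates, except that coordinates
which are equal on the whole curve are allowed.  Then there is an integer `M > 0` such that for
**every** algebraic number `c` such that `(deg c + 1)! M c` is not an algebraic integer (for all
rational numbers `c` outside `(1 / 2M) ℤ`, and for all elements `c` of a number field `K` outside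
`(1 / M') 𝒪_K`, `M' = ([K : ℚ] + 1)! M`), and for every complex number `c` which is transcendental
over a field of definition of `Z`, the translate `Z + (c, …, c)` satisfies the Zilber–Pink
conjecture, and its maximal atypical subvarieties are exactly the translates `B + (c, …, c)` of the
maximal components of excess dimension of the intersections of `Z` with the diagonals
`z_i = z_j = …`.  Their number is finite and does not depend on `c`.

**Every** subvariety, of any dimension, is in hereditary general position and has no such components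
after a general Möbius transformation `z_i ↦ 1 / (z_i - γ_i) + μ_i`, and **every** curve is in
hereditary general position after `z_i ↦ 1 / (z_i - g)`, for all but finitely many `g ∈ ℂ`.

The proof works at a place at which `c` is larger than the denominators of the equations of `Z`.
There a special subvariety gives relations `x_i = ζ x_j` modulo integral elements, with a root of
unity `ζ`, between the non-integral coordinates of a point `x`, by the theory of the Tate curve, in a
form which keeps track of the equality of `x_i` and `x_j`.  If `M c (1 - ζ)` is integral only for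
`ζ = 1`, then these relations give congruences between the coordinates of the point `x - c` of `Z`,
and the isogenies must be equalities.
-/

open Finset MvPolynomial Pool.Agent.Helper11.ZP Pool.Agent.Helper36.ZW
open scoped Nat

namespace Pool.Agent.Results.MP_130685_nt.UniformTranslates

/-- **Zilber–Pink for the translates of `Z`, uniformly in the translate** -/
theorem result (n : ℕ) :
    (∀ Z : Set (Fin n → ℂ), IsSubvariety Z → HerGP Z →
      ∃ M : ℕ, 0 < M ∧ ∀ c : ℂ, Far M Z c → ZilberPink Z c) ∧
    (∀ V : Set (Fin n → ℂ), IsSubvariety V →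
      ∃ P : MvPolynomial (Fin n) ℂ, P ≠ 0 ∧ ∀ γ : Fin n → ℂ, eval γ P ≠ 0 →
      ∃ Q : MvPolynomial (Fin n) ℂ, Q ≠ 0 ∧ ∀ μ : Fin n → ℂ, eval μ Q ≠ 0 →
      ∀ Z, Z = moebius γ μ V → IsSubvariety Z ∧ dim Z = dim V ∧ HerGP Z ∧
        ∃ M : ℕ, 0 < M ∧ ∀ c : ℂ, Far M Z c → ∀ A, ¬ IsAtypical (shift Z c) A) ∧
    (∀ C : Set (Fin n → ℂ), IsSubvariety C → dim C = 1 →
      {g : ℂ | ¬ (IsSubvariety (moebius (fun _ => g) 0 C) ∧ dim (moebius (fun _ => g) 0 C) = 1 ∧
        HerGP (moebius (fun _ => g) 0 C))}.Finite) ∧
    (3 ≤ n → IsSubvariety (exCurve n) ∧ dim (exCurve n) = 1 ∧ ∀ c : ℂ, Far (n - 1)! (exCurve n) c →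
      ∀ A, IsAtypical (shift (exCurve n) c) A ↔ A = {fun _ => c}) := by
  refine ⟨fun Z hZ h => zilberPink hZ h, fun V hV => ?_, fun C hC h1 => curves hC h1,
    fun hn => example_curve hn⟩
  obtain ⟨P, hP, h⟩ := generic hV
  refine ⟨P, hP, fun γ hγ => ?_⟩
  obtain ⟨Q, hQ, h1⟩ := h γ hγ
  refine ⟨Q, hQ, fun μ hμ => ?_⟩
  rintro _ rfl
  obtain ⟨h2, h3, h4, h5⟩ := h1 μ hμ
  obtain ⟨M, hM0, hM⟩ := zilberPink h2 h4
  exact ⟨h2, h3, h4, M, hM0, fun c hc A => (hM c hc).none h5 A⟩

end Pool.Agent.Results.MP_130685_nt.UniformTranslates
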